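import Pool.Agent.N510.CT.Bass
import Pool.Agent.N510.CT.Mod

set_option autoImplicit false

/-!
# The Bass trace conjecture at the norm `3 / √2`

Over every commutative domain and for every group the Bass trace conjecture holds for the finitely
generated projective modules which have a presentation matrix whose support is contained in the
support of an integer matrix of `ℓ²`-operator norm at most `3 / √2` (the bound included). For every
larger bound all finitely generated projective modules have such a presentation, even with
coefficients in a given symmetric set of additive generators of the ring.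
-/

namespace Pool.Agent.Results.MP_7903c7_al.CriticalNormTrace

open TH57.Thr TH6.PF Matrix Pool.Agent.N510

/-- The row space `(RG)^k · A` of the matrix `A` is isomorphic to the cokernel of `M`, that is,
`(RG)^n` modulo the rows of `M`. -/
def Presents {R : Type} [Ring R] {G : Type} [Group G] {k m n : ℕ}
    (A : Matrix (Fin k) (Fin k) (MonoidAlgebra R G))
    (M : Matrix (Fin m) (Fin n) (MonoidAlgebra R G)) : Prop :=
  Nonempty (LinearMap.range A.vecMulLinear ≃ₗ[MonoidAlgebra R G]
    ((Fin n → MonoidAlgebra R G) ⧸ LinearMap.range M.vecMulLinear))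

/-- The support of `M` is contained in the support of the integer matrix `N`. -/
def SupportedIn {R : Type} [Ring R] {G : Type} [Group G] {m n : ℕ}
    (M : Matrix (Fin m) (Fin n) (MonoidAlgebra R G))
    (N : Matrix (Fin m) (Fin n) (MonoidAlgebra ℤ G)) : Prop :=
  ∀ i j g, (M i j).coeff g ≠ 0 → (N i j).coeff g ≠ 0

/-- The sum `τ_A(g)` of the coefficients of the trace of `A` at the conjugates of `g`. -/
noncomputable def tau {R : Type} [CommRing R] {G : Type} [Group G] {k : ℕ}
    (A : Matrix (Fin k) (Fin k) (MonoidAlgebra R G)) (g : G) : R :=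
  ∑ i : Fin k, ∑ᶠ (h : G) (_ : IsConj h g), (A i i).coeff h

/-- `NormLE N c` (from `Pool.Agent.TH57.Thr.Defs`): right multiplication by `N` on `ℓ²` has norm at
most `|c|`.
1. Let the idempotent matrix `A` over `RG` be such that its module is presented by a matrix which is
   supported in an integer matrix of norm at most `3 / √2`. Then `τ_A(g) = 0` for all `g` whose
   order is not invertible in `R`.
2. Let `c > 3 / √2` and let `S` be a set of additive generators of `R` with `1 ∈ S` and `-S = S`.
   Then the module of every idempotent matrix over `RG` is presented by a matrix with coefficients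
   in `S ∪ {0}` whose support pattern has norm at most `c`. -/
theorem result :
    (∀ (R : Type) [CommRing R] [IsDomain R] (G : Type) [Group G] (k m n : ℕ)
      (A : Matrix (Fin k) (Fin k) (MonoidAlgebra R G))
      (M : Matrix (Fin m) (Fin n) (MonoidAlgebra R G))
      (N : Matrix (Fin m) (Fin n) (MonoidAlgebra ℤ G)) (c : ℝ), A * A = A → Presents A M →
      SupportedIn M N → 0 < c → c ^ 2 ≤ 9 / 2 → NormLE N c →
      ∀ g : G, ¬ IsUnit ((orderOf g : ℕ) : R) → tau A g = 0) ∧
    ∀ (R : Type) [CommRing R] [IsDomain R] (S : Set R), LT.Gens S → ∀ (G : Type) [Group G] (k : ℕ)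
      (A : Matrix (Fin k) (Fin k) (MonoidAlgebra R G)) (c : ℝ), A * A = A → 9 / 2 < c ^ 2 →
      ∃ (m n : ℕ) (M : Matrix (Fin m) (Fin n) (MonoidAlgebra R G)),
        Presents A M ∧ LT.CS S M ∧ NormLE (pat M) c := by
  refine ⟨?_, ?_⟩
  · rintro R _ _ G _ k m n A M N c hA ⟨φ⟩ hMN hc0 hc hN g hg
    exact CT.bass_thin_module2 c hc0 hc A hA M N hN hMN φ g hg
  · intro R _ _ S hS G _ k A c hA hc
    have hP : Module.Projective (MonoidAlgebra R G) (LinearMap.range A.vecMulLinear) := by
      refine Module.Projective.of_split (LinearMap.range A.vecMulLinear).subtype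
        A.vecMulLinear.rangeRestrict ?_
      refine LinearMap.ext fun z => ?_
      obtain ⟨_, ⟨x, rfl⟩⟩ := z
      apply Subtype.ext
      change (x ᵥ* A) ᵥ* A = x ᵥ* A
      rw [Matrix.vecMul_vecMul, hA]
    have hfin : Module.Finite (MonoidAlgebra R G) (LinearMap.range A.vecMulLinear) :=
      Module.Finite.range _
    have hfp : Module.FinitePresentation (MonoidAlgebra R G) (LinearMap.range A.vecMulLinear) :=
      Module.finitePresentation_of_projective _ _
    obtain ⟨m, n, M, h1, h2, h3⟩ := CT.sthin_pres hS _ hfp c hc
    exact ⟨m, n, M, h3, h1, h2⟩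

end Pool.Agent.Results.MP_7903c7_al.CriticalNormTrace
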