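import Pool.Agent.N508.CS.Tfr
import Pool.Agent.N508.CS.Trv
import Pool.Agent.N508.CS.Gd
import Pool.Agent.N508.CS.Fed

/-!
# Extensions whose kernels are fundamental groups of graphs of groups with detected edge groups

`C` is any class of groups with the closure properties `ClosedE C` which contains the metabelian groups
and the groups `F ⋊ Z`, `F` a free group (`FbC`). All this is published for the class of the groups whose
wreath products with finite groups satisfy the K-theoretic Farrell-Jones conjecture with coefficients in
additive categories (Wegner for solvable groups, Bestvina, Fujiwara and Wigglesworth and Brück, Kielak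
and Wu for free-by-cyclic groups). The conclusion of the Bass trace conjecture (the question of this
page) holds for the groups in this class (Bartels, Lück and Reich).

Let `N` be a normal subgroup of `G` with `G / N` in `C`, and let `N` act on a tree `T` without
inversions. The action need not extend to an action of `G`, but `G` permutes the vertex stabilizers
`N_v` of `N`. Suppose that there are numbers `k` and `s` such that every element `x ≠ 1` of `N` which
fixes an edge is mapped to a nontrivial element by some homomorphism from `N` to the symmetric group
`Sym(k)`, or by the homomorphism to `N / N^(s)`, where `N^(s)` is the `s`-th derived subgroup. If for all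
`v` and all `g` in `G` with `g N_v g⁻¹ = N_v` the group `N_v⟨g⟩` is in `C`, then `G` is in `C`.

The case of trivial edge stabilizers, where `N` is a free product, is `FreeProductExtensions` (for
`MP_490288_al`). The theorem applies to residually finite groups `N` which are fundamental groups of
finite graphs of groups with finite edge groups, if `G` permutes the conjugacy classes of the vertex
groups. So for a finitely presented residually finite group `N` all extensions `N ⋊ Z` are in `C` if
this holds for the infinite vertex groups of a reduced decomposition of `N` with finite edge groups and
finite or one-ended vertex groups (Dunwoody), because automorphisms of `N` permute the vertex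
stabilizers. Most of them preserve no tree. The edge groups may also be infinite, for example solvable
and retracts of `N`.

Outline of the proof. Let `D` be the intersection of `N^(s)` and of the kernels of the homomorphisms
from `N` to `Sym(k)`. It is a characteristic subgroup of `N`, and `N / D` embeds in the product of a
solvable group and of a locally finite group, so `G / D` is in `C`. The edge stabilizers of the action of
`D` are trivial, and `G` permutes the vertex stabilizers `D_v`. If `D_v` is not trivial, the elements
which normalize `D_v` normalize `N_v`. The theorem on extensions by free products applies to the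
group generated by the `D_v`, whose quotient in `D` is free.
-/

set_option autoImplicit false

namespace Pool.Agent.Results.MP_7903c7_al.DetectedEdgeKernels

open Pool.Agent.Y110.FJ (ClosedE)
open Pool.Agent.R684.FP (FbC)
open Pool.Agent.N508.CS

theorem result (C : ∀ (G : Type) [Group G], Prop) (hC : ClosedE C)
    (hM : ∀ (G : Type) [Group G], derivedSeries G 2 = ⊥ → C G) (hF : FbC C)
    {G V : Type} [Group G] (N : Subgroup G) [N.Normal] (hQ : C (G ⧸ N))
    [MulAction N V] (T : SimpleGraph V) (hT : T.IsTree)
    (hact : ∀ (g : N) (u v : V), T.Adj u v → T.Adj (g • u) (g • v))
    (hinv : ∀ (g : N) (u v : V), T.Adj u v → ¬ (g • u = v ∧ g • v = u))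
    (k s : ℕ) (hdet : ∀ u v : V, T.Adj u v → ∀ x : N, x • u = u → x • v = v → x ≠ 1 →
      x ∉ derivedSeries N s ∨ ∃ f : N →* Equiv.Perm (Fin k), f x ≠ 1)
    (hperm : ∀ (g : G) (v : V), ∃ w : V, ∀ x y : N, (y : G) = g * (x : G) * g⁻¹ →
      (x • v = v ↔ y • w = w))
    (hcyc : ∀ (v : V) (g : G),
      (∀ x y : N, (y : G) = g * (x : G) * g⁻¹ → (x • v = v ↔ y • v = v)) →
      C ↥((MulAction.stabilizer N v).map N.subtype ⊔ Subgroup.zpowers g)) : C G :=
  t_fed (t_trv t_tfr) t_gd C hC hM hF G V N T hT hact hinv k s hdet hperm hcyc hQ

end Pool.Agent.Results.MP_7903c7_al.DetectedEdgeKernels
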