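import Pool.Agent.N94.BassDet

/-!
# The Bass trace conjecture over domains of characteristic zero: residually finite groups, groups
# locally embeddable into finite groups, and elements with infinite order in the profinite
# completion of their centraliser

Let `A` be an idempotent matrix over `R[G]`, where `R` is any commutative domain of characteristic
zero (for example the field of complex numbers, in which all primes are units) and `G` is any group.
The value `τ_A(g)` vanishes at every element `g` of infinite order which is locally detected: for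
every finite subset `W` of `G` and every `m ≥ 1` there are a map `f` from `G` to a group `H` which is
multiplicative on `W`, and a homomorphism `π` from the centraliser of `f g` in `H` to a finite group
with `π (f g) ^ m ≠ 1`.

The two basic cases: `H = G` (the element `g` has infinite order in the profinite completion of its
centraliser; nothing else is assumed about `G`), and `H` finite (`G` is locally embeddable into finite
groups, for example residually finite, and `g` is any element of infinite order).
-/

set_option autoImplicit false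

namespace Pool.Agent.Results.MP_7903c7_al.LocallyDetected

universe u v

/-- The value of the Hattori-Stallings rank of the matrix `A` at the conjugacy class of `g`. -/
noncomputable def tau {R : Type u} [CommRing R] {G : Type v} [Group G] {k : ℕ}
    (A : Matrix (Fin k) (Fin k) (MonoidAlgebra R G)) (g : G) : R :=
  ∑ i : Fin k, ∑ᶠ (h : G) (_ : IsConj h g), (A i i).coeff h

/-- The Bass trace conjecture for the ring `R` and the group `G`. -/
def BassFor (R : Type u) [CommRing R] (G : Type v) [Group G] : Prop :=
  ∀ (k : ℕ) (A : Matrix (Fin k) (Fin k) (MonoidAlgebra R G)), A * A = A →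
    ∀ g : G, ¬ IsUnit ((orderOf g : ℕ) : R) → tau A g = 0

/-- There are a map `f` from `G` to some group `H` with `f (x y) = f x f y` for `x, y ∈ W`, and a
homomorphism `π` from the centraliser of `f g` in `H` to a finite group with `π (f g) ^ m ≠ 1`. -/
def DetectedOn {G : Type v} [Group G] (g : G) (W : Finset G) (m : ℕ) : Prop :=
  ∃ (H : Type v) (_ : Group H) (f : G → H) (Q : Type) (_ : Group Q) (_ : Finite Q)
    (π : Subgroup.centralizer ({f g} : Set H) →* Q) (z : Subgroup.centralizer ({f g} : Set H)),
    (∀ x ∈ W, ∀ y ∈ W, f (x * y) = f x * f y) ∧ (z : H) = f g ∧ π z ^ m ≠ 1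

/-- `g` is locally detected as an element of infinite order. -/
def LocallyDet {G : Type v} [Group G] (g : G) : Prop :=
  ∀ (W : Finset G) (m : ℕ), m ≠ 0 → DetectedOn g W m

/-- `h` has infinite order in the profinite completion of its centraliser: for every `m ≥ 1` there is
a homomorphism `π` from the centraliser to a finite group with `π h ^ m ≠ 1`. -/
def ProfiniteInCentralizer {G : Type v} [Group G] (h : G) : Prop :=
  ∀ m : ℕ, m ≠ 0 → ∃ (Q : Type) (_ : Group Q) (_ : Finite Q)
    (π : Subgroup.centralizer ({h} : Set G) →* Q) (z : Subgroup.centralizer ({h} : Set G)),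
    (z : G) = h ∧ π z ^ m ≠ 1

/-- `G` is locally embeddable into finite groups: for every finite subset `W` there is a map from
`G` to a finite group which is injective on `W` and multiplicative on `W`. -/
def LEF (G : Type v) [Group G] : Prop :=
  ∀ W : Finset G, ∃ (Q : Type) (_ : Group Q) (_ : Finite Q) (f : G → Q),
    Set.InjOn f W ∧ ∀ x ∈ W, ∀ y ∈ W, f (x * y) = f x * f y

/-- `G` has a periodic normal subgroup with quotient locally embeddable into finite groups. -/
def PeriodicByLEF (G : Type v) [Group G] : Prop :=
  ∃ (N : Subgroup G) (_ : N.Normal), (∀ x ∈ N, IsOfFinOrder x) ∧ LEF (G ⧸ N)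

/-- `G` is residually finite. -/
def ResFinite (G : Type v) [Group G] : Prop :=
  ∀ g : G, g ≠ 1 → ∃ N : Subgroup G, N.Normal ∧ N.FiniteIndex ∧ g ∉ N

/-- `h` is conjugate to `h ^ (n ^ J)` for all `n` coprime to `m`, for some `m ≥ 2` and `J ≥ 1`. -/
def AlmostDivisible {G : Type v} [Group G] (h : G) : Prop :=
  ∃ m J : ℕ, 2 ≤ m ∧ 1 ≤ J ∧ ∀ n : ℕ, n.Coprime m → IsConj h (h ^ n ^ J)

/-- elements with infinite order in a quotient that is locally embeddable into finite groups -/
theorem detected_of_lef {G : Type v} [Group G] (N : Subgroup G) [N.Normal] (hQ : LEF (G ⧸ N))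
    {g : G} (hg : ∀ m : ℕ, m ≠ 0 → g ^ m ∉ N) (W : Finset G) (m : ℕ) (hm : m ≠ 0) :
    DetectedOn g W m := by
  classical
  let mk : G →* G ⧸ N := QuotientGroup.mk' N
  obtain ⟨Q, i1, i2, f, hinj, hmul⟩ := hQ (W.image mk ∪ (Finset.range (m + 1)).image (fun i => mk g ^ i))
  have hpow : ∀ i ≤ m, mk g ^ i ∈ (W.image mk ∪ (Finset.range (m + 1)).image (fun i => mk g ^ i)) :=
    fun i hi => Finset.mem_union_right _ (Finset.mem_image.2 ⟨i, Finset.mem_range.2 (by omega), rfl⟩)
  have h1 : f 1 = 1 := by
    have h := hmul (mk g ^ 0) (hpow 0 (Nat.zero_le _)) (mk g ^ 0) (hpow 0 (Nat.zero_le _))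
    rw [pow_zero, mul_one] at h
    exact mul_eq_left.1 h.symm
  have hp : ∀ i ≤ m, f (mk g ^ i) = f (mk g) ^ i := by
    intro i
    induction i with
    | zero => intro _; rw [pow_zero, pow_zero, h1]
    | succ i ih =>
      intro hi
      have h := hmul (mk g ^ i) (hpow i (by omega)) (mk g ^ 1) (hpow 1 (by omega))
      rw [pow_one] at h
      rw [pow_succ, h, ih (by omega), pow_succ]
  refine ⟨ULift Q, inferInstance, fun x => ULift.up (f (mk x)), Q, i1, i2,
    (MulEquiv.ulift : ULift Q ≃* Q).toMonoidHom.comp (Subgroup.subtype _),
    ⟨ULift.up (f (mk g)), Subgroup.mem_centralizer_singleton_iff.2 rfl⟩, ?_, rfl, ?_⟩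
  · intro x hx y hy
    change ULift.up (f (mk (x * y))) = ULift.up (f (mk x) * f (mk y))
    rw [map_mul, hmul _ (Finset.mem_union_left _ (Finset.mem_image_of_mem _ hx)) _
      (Finset.mem_union_left _ (Finset.mem_image_of_mem _ hy))]
  · change f (mk g) ^ m ≠ 1
    rw [← hp m le_rfl, ← h1]
    intro h
    have h2 : mk g ^ m = 1 := by
      have h3 := hinj (Finset.mem_coe.2 (hpow m le_rfl)) (by
        have := hpow 0 (Nat.zero_le _)
        rw [pow_zero] at this
        exact Finset.mem_coe.2 this) h
      exact h3
    apply hg m hm
    rw [← map_pow] at h2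
    exact (QuotientGroup.eq_one_iff _).1 h2

/-- **The Bass trace conjecture in characteristic zero at locally detected elements.**

(1) Let `A` be an idempotent matrix over `R[G]`, `R` a commutative domain of characteristic zero. Then
`τ_A(g) = 0` for every locally detected `g`. If `R` is a field and `N` times the coefficients of `A`
are integral over `ℤ`, detection with the exponent `m = N ^ 2` is enough.

(2) The full assertion of the conjecture (for all elements whose order is not a unit) holds for `R`
and `G` if, in every finitely generated subgroup `H` of `G`, every element of infinite order is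
locally detected, or has infinite order in the profinite completion of its centraliser in `H`, or is
not almost divisible.

(3) It holds for `R` and `G` if `G` has a periodic normal subgroup `N` such that `G / N` is locally
embeddable into finite groups; in particular for all groups locally embeddable into finite groups, and
for all residually finite groups. -/
theorem result :
    (∀ (R : Type u) [CommRing R] [IsDomain R] [CharZero R] (G : Type v) [Group G] (k : ℕ)
        (A : Matrix (Fin k) (Fin k) (MonoidAlgebra R G)), A * A = A →
        ∀ g : G, LocallyDet g → tau A g = 0) ∧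
    (∀ (K : Type u) [Field K] [CharZero K] (G : Type v) [Group G] (k : ℕ)
        (A : Matrix (Fin k) (Fin k) (MonoidAlgebra K G)), A * A = A →
        ∀ N : ℕ, N ≠ 0 → (∀ i j h, IsIntegral ℤ ((N : K) * (A i j).coeff h)) →
        ∀ g : G, (∀ W : Finset G, DetectedOn g W (N ^ 2)) → tau A g = 0) ∧
    (∀ (R : Type u) [CommRing R] [IsDomain R] [CharZero R] (G : Type v) [Group G],
      ((∀ H : Subgroup G, H.FG → ∀ h : H, ¬ IsOfFinOrder h →
          LocallyDet h ∨ ProfiniteInCentralizer h ∨ ¬ AlmostDivisible h) ∨
        PeriodicByLEF G ∨ LEF G ∨ ResFinite G) → BassFor R G) := by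
  have key : ∀ (R : Type u) [CommRing R] [IsDomain R] [CharZero R] (G : Type v) [Group G],
      ((∀ H : Subgroup G, H.FG → ∀ h : H, ¬ IsOfFinOrder h →
          LocallyDet h ∨ ProfiniteInCentralizer h ∨ ¬ AlmostDivisible h) →
        BassFor R G) := by
    intro R _ _ _ G _ h k A hA g hg
    refine Pool.Agent.N94.BassDet.bass_of_det (fun H hH x hx => ?_) hA g hg
    rcases h H hH x hx with h1 | h1 | h1
    · exact Or.inl h1
    · left
      intro W m hm
      obtain ⟨Q, i1, i2, π, z, hz, hne⟩ := h1 m hm
      exact ⟨H, inferInstance, id, Q, i1, i2, π, z, fun _ _ _ _ => rfl, hz, hne⟩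
    · exact Or.inr h1
  have hdet : ∀ (R : Type u) [CommRing R] [IsDomain R] [CharZero R] (G : Type v) [Group G]
      (k : ℕ) (A : Matrix (Fin k) (Fin k) (MonoidAlgebra R G)), A * A = A →
        ∀ g : G, LocallyDet g → tau A g = 0 := by
    intro R _ _ _ G _ k A hA g hg
    exact Pool.Agent.N94.BassDet.tau_zero hA hg
  have hper : ∀ (R : Type u) [CommRing R] [IsDomain R] [CharZero R] (G : Type v) [Group G],
      PeriodicByLEF G → BassFor R G := by
    rintro R _ _ _ G _ ⟨N, hN, hfin, hlef⟩ k A hA g hg
    by_cases h0 : orderOf g = 0
    · refine hdet R G k A hA g (detected_of_lef N hlef ?_)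
      intro m hm hmem
      have h1 := hfin _ hmem
      have h2 : IsOfFinOrder g := by
        obtain ⟨j, hj, hj1⟩ := isOfFinOrder_iff_pow_eq_one.1 h1
        exact isOfFinOrder_iff_pow_eq_one.2 ⟨m * j, Nat.mul_pos (Nat.pos_of_ne_zero hm) hj, by
          rw [pow_mul]; exact hj1⟩
      have h3 := orderOf_pos_iff.2 h2
      omega
    · have h1 := Pool.Agent.H26R2.Bass.tf_zero_of_finite A hA g h0 hg
      rw [← Pool.Agent.H26R2.Bass.tau_eq] at h1
      exact h1
  have hlef : ∀ (R : Type u) [CommRing R] [IsDomain R] [CharZero R] (G : Type v) [Group G],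
      LEF G → BassFor R G := by
    intro R _ _ _ G _ h
    apply hper R G
    refine ⟨⊥, inferInstance, fun x hx => ?_, ?_⟩
    · rw [Subgroup.mem_bot.1 hx]; exact IsOfFinOrder.one
    · classical
      intro W
      let e : G ⧸ (⊥ : Subgroup G) ≃* G := QuotientGroup.quotientBot
      obtain ⟨Q, i1, i2, f, hinj, hmul⟩ := h (W.image e)
      refine ⟨Q, i1, i2, fun x => f (e x), ?_, ?_⟩
      · intro a ha b hb hab
        exact e.injective (hinj (Finset.mem_coe.2 (Finset.mem_image_of_mem _ (Finset.mem_coe.1 ha)))
          (Finset.mem_coe.2 (Finset.mem_image_of_mem _ (Finset.mem_coe.1 hb))) hab)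
      · intro x hx y hy
        change f (e (x * y)) = f (e x) * f (e y)
        rw [map_mul]
        exact hmul _ (Finset.mem_image_of_mem _ hx) _ (Finset.mem_image_of_mem _ hy)
  refine ⟨hdet, ?_, ?_⟩
  · intro K _ _ G _ k A hA N hN hint g hg
    have h1 := Pool.Agent.N94.BassDet.tr_zero_det_integral hA hN hint hg
    rw [← h1, Pool.Agent.Y84.PG.tr_apply]
    exact Finset.sum_congr rfl (fun i _ => (Pool.Agent.Y84.PG.T_cls_eq g _).symm)
  · intro R _ _ _ G _ hyp
    rcases hyp with h | h | h | h
    · exact key R G h
    · exact hper R G h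
    · exact hlef R G h
    · apply hlef R G
      intro W
      obtain ⟨Q, i1, i2, f, hinj, hmul⟩ := Pool.Agent.Y84.PT.lef_of_rf h W
      obtain ⟨n, ⟨e⟩⟩ := Finite.exists_equiv_fin Q
      let e' : Q →* Equiv.Perm (Fin n) :=
        (Equiv.permCongrHom e).toMonoidHom.comp (MulAction.toPermHom Q Q)
      have he' : Function.Injective e' :=
        (Equiv.permCongrHom e).injective.comp MulAction.toPerm_injective
      refine ⟨Equiv.Perm (Fin n), inferInstance, inferInstance, fun x => e' (f x), ?_, ?_⟩
      · intro a ha b hb hab
        exact hinj ha hb (he' hab)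
      · intro x hx y hy
        change e' (f (x * y)) = e' (f x) * e' (f y)
        rw [hmul x hx y hy, map_mul]

end Pool.Agent.Results.MP_7903c7_al.LocallyDetected
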